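import Mathlib

set_option autoImplicit false

namespace Pool.Agent.Results.MP_7a8221_co.Counter

/-- Cells are named by their lower left corners. -/
def L : Finset (ℤ × ℤ) := {(0, 0), (1, 0), (2, 0), (0, 1)}

def rot (p : ℤ × ℤ) : ℤ × ℤ := (-p.2, p.1)

/-- The copy of `L` turned by `k` quarter turns and translated by `v`. -/
def copy (k : ℕ) (v : ℤ × ℤ) : Finset (ℤ × ℤ) := L.image fun p => rot^[k] p + v

def rect (m n : ℕ) : Finset (ℤ × ℤ) :=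
  (Finset.range m ×ˢ Finset.range n).image fun p => ((p.1 : ℤ), (p.2 : ℤ))

def Tileable (m n : ℕ) : Prop :=
  ∃ T : Finset (Finset (ℤ × ℤ)), (∀ t ∈ T, ∃ k v, t = copy k v) ∧
    (∀ s ∈ T, ∀ t ∈ T, s ≠ t → Disjoint s t) ∧ T.biUnion id = rect m n

def data : Fin 10 → ℕ × (ℤ × ℤ) := ![(0, (0, 0)), (1, (1, 2)), (3, (0, 5)), (0, (0, 6)), (1, (2, 1)), (2, (3, 7)), (0, (2, 4)), (1, (4, 0)), (3, (3, 3)), (1, (4, 5))]

theorem result : ∃ m n : ℕ, 1 ≤ m ∧ 1 ≤ n ∧ Tileable m n ∧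
    ¬ ((4 ∣ m ∧ Even n) ∨ (4 ∣ n ∧ Even m)) := by
  refine ⟨5, 8, by norm_num, by norm_num,
    ⟨Finset.univ.image fun i => copy (data i).1 (data i).2, ?_, ?_, ?_⟩, by decide⟩
  · intro t ht
    obtain ⟨i, -, rfl⟩ := Finset.mem_image.1 ht
    exact ⟨_, _, rfl⟩
  · decide +kernel
  · decide +kernel

end Pool.Agent.Results.MP_7a8221_co.Counter
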